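import Pool.Agent.W619.Y.Stm

/-! Project PG, part EXT: extension of derivations. -/

set_option autoImplicit false

universe u v

open FF IntermediateField Pool.Agent.W619.PQ Pool.Agent.W619.PL Pool.Agent.W619.TW
  Pool.Agent.W603.LV

namespace Pool.Agent.W357.PG

/-- conjugation of a derivation by an automorphism -/
noncomputable def conj {k L : Type*} [Field k] [Field L] [Algebra k L] (g : L ≃ₐ[k] L)
    (D : Derivation k L L) : Derivation k L L :=
  Derivation.mk' (g.toLinearMap ∘ₗ (D : L →ₗ[k] L) ∘ₗ g.symm.toLinearMap) (by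
    intro a b
    simp only [LinearMap.comp_apply, AlgEquiv.toLinearMap_apply, Derivation.coeFn_coe, map_mul,
      D.leibniz, map_add, smul_eq_mul, AlgEquiv.apply_symm_apply])

theorem conj_apply {k L : Type*} [Field k] [Field L] [Algebra k L] (g : L ≃ₐ[k] L)
    (D : Derivation k L L) (z : L) : conj g D z = g (D (g.symm z)) := rfl

theorem sum_apply' {k L ι : Type*} [Field k] [Field L] [Algebra k L] (s : Finset ι)
    (f : ι → Derivation k L L) (y : L) : (∑ j ∈ s, f j) y = ∑ j ∈ s, f j y := by
  classical
  induction s using Finset.induction_on with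
  | empty => rfl
  | insert a s ha ih => rw [Finset.sum_insert ha, Finset.sum_insert ha, ← ih]; rfl

theorem main : Pool.Agent.W619.Y.S_EXT.{u, v} := by
  intro k K L _ _ _ _ _ _ _ _ _ n htr D
  classical
  obtain ⟨ι, x, hx⟩ := exists_isTranscendenceBasis' k K
  have hfin : Finite ι := by
    have h1 := hx.cardinalMk_eq_trdeg
    rw [htr] at h1
    exact Cardinal.lt_aleph0_iff_finite.1 (h1 ▸ Cardinal.natCast_lt_aleph0)
  have := Fintype.ofFinite ι
  have hxL : IsTranscendenceBasis k (algebraMap K L ∘ x) := hx.algebraMap_comp (A := L)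
  choose d hd using exists_dual (k := k) (K := L) (algebraMap K L ∘ x) hxL
  have huniq : ∀ D₁ D₂ : Derivation k L L, (∀ i, D₁ (algebraMap K L (x i)) =
      D₂ (algebraMap K L (x i))) → D₁ = D₂ := by
    intro D₁ D₂ h
    ext z
    have := der_zero (D₁ - D₂) (algebraMap K L ∘ x) hxL (fun i => by
      change D₁ (algebraMap K L (x i)) - D₂ (algebraMap K L (x i)) = 0
      rw [h, sub_self]) z
    exact sub_eq_zero.1 this
  set D' : Derivation k L L := ∑ j, algebraMap K L (D (x j)) • d j with hD'
  have hDx : ∀ i, D' (algebraMap K L (x i)) = algebraMap K L (D (x i)) := by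
    intro i
    rw [hD', sum_apply', Finset.sum_eq_single i]
    · have := hd i i
      rw [if_pos rfl] at this
      change algebraMap K L (D (x i)) * d i (algebraMap K L (x i)) = _
      change d i (algebraMap K L (x i)) = 1 at this
      rw [this, mul_one]
    · intro j _ hj
      have := hd j i
      rw [if_neg (Ne.symm hj)] at this
      change algebraMap K L (D (x j)) * d j (algebraMap K L (x i)) = 0
      change d j (algebraMap K L (x i)) = 0 at this
      rw [this, mul_zero]
    · intro h; exact absurd (Finset.mem_univ i) h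
  have hcomp : ∀ f : K, D' (algebraMap K L f) = algebraMap K L (D f) :=
    der_comp D D' x hx hDx
  refine ⟨D', hcomp, fun D'' h => huniq _ _ fun i => by rw [h, hcomp], fun g hg z => ?_⟩
  have h1 : conj g D' = D' := by
    refine huniq _ _ fun i => ?_
    rw [conj_apply]
    have h2 : g.symm (algebraMap K L (x i)) = algebraMap K L (x i) := by
      rw [AlgEquiv.symm_apply_eq, hg]
    rw [h2, hcomp, hg]
  have h3 : conj g D' (g z) = D' (g z) := by rw [h1]
  rw [conj_apply, AlgEquiv.symm_apply_apply] at h3
  exact h3

end Pool.Agent.W357.PG
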